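import Pool.Agent.Lib.H31S.D

/-! # H31S, chunk C1: adding a vertex to A -/

set_option autoImplicit false

namespace H31S

open Finset

variable {V : Type*} [Fintype V] [DecidableEq V]

/-- (C1a, S) PROOF. A set which separates `A` separates `insert b A`. If `b ∈ S` and `S` is disjoint from `A`, then `S`
separates `insert b A` (some `a ∈ A` is outside `S`). -/
theorem feas_ins1 {G : Finset (Sym2 V)} {A : Finset V} {b : V} {x : V → V → ℝ} (hA : A.Nonempty)
    (h : Feas G (insert b A) x) : Feas G A x ∧ FL x A b 2 := by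
  refine ⟨⟨h.wt, h.deg_le, fun S hS => h.sep S ?_⟩, fun S hb hd => h.sep S ?_⟩
  · obtain ⟨⟨a, ha, haS⟩, a', ha', haS'⟩ := hS
    exact ⟨⟨a, mem_insert_of_mem ha, haS⟩, a', mem_insert_of_mem ha', haS'⟩
  · obtain ⟨a, ha⟩ := hA
    exact ⟨⟨b, mem_insert_self b A, hb⟩, a, mem_insert_of_mem ha, fun haS => Finset.disjoint_left.1 hd haS ha⟩

/-- (C1b, S) PROOF. Let `S` separate `insert b (insert d A)`. If it separates `A` use `h.sep`. Otherwise `S` or `Sᶜ` is
disjoint from `A` (one of them; both sides of the separation contain an element of `insert b (insert d A)`) and this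
side contains `b` or `d`; use `hb` or `hd` and `cut_compl`. -/
theorem feas_ins2 {G : Finset (Sym2 V)} {A : Finset V} {b d : V} {x : V → V → ℝ} (h : Feas G A x)
    (hb : FL x A b 2) (hd : FL x A d 2) : Feas G (insert b (insert d A)) x := by
  refine ⟨h.wt, h.deg_le, fun S hS => ?_⟩
  by_cases hA : Sep A S
  · exact h.sep S hA
  obtain ⟨⟨c, hc, hcS⟩, c', hc', hcS'⟩ := hS
  by_cases h1 : ∃ a ∈ A, a ∈ S
  · have hall : ∀ a ∈ A, a ∈ S := by
      intro a ha
      by_contra haS
      exact hA ⟨h1, a, ha, haS⟩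
    have hdis : Disjoint Sᶜ A := Finset.disjoint_left.2 fun v hv hvA => (Finset.mem_compl.1 hv) (hall v hvA)
    rw [← cut_compl h.wt S]
    rcases Finset.mem_insert.1 hc' with h2 | h2
    · rw [h2] at hcS'
      exact hb Sᶜ (Finset.mem_compl.2 hcS') hdis
    rcases Finset.mem_insert.1 h2 with h3 | h3
    · rw [h3] at hcS'
      exact hd Sᶜ (Finset.mem_compl.2 hcS') hdis
    · exact absurd (hall c' h3) hcS'
  · have hdis : Disjoint S A := Finset.disjoint_left.2 fun v hv hvA => h1 ⟨v, hvA, hv⟩
    rcases Finset.mem_insert.1 hc with h2 | h2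
    · rw [h2] at hcS
      exact hb S hcS hdis
    rcases Finset.mem_insert.1 h2 with h3 | h3
    · rw [h3] at hcS
      exact hd S hcS hdis
    · exact absurd ⟨c, h3, hcS⟩ h1

/-- (C1c, S) PROOF. The same with one vertex. -/
theorem feas_ins_of {G : Finset (Sym2 V)} {A : Finset V} {b : V} {x : V → V → ℝ} (h : Feas G A x)
    (hb : FL x A b 2) : Feas G (insert b A) x := by
  have h1 := feas_ins2 h hb hb
  rwa [Finset.insert_idem] at h1

end H31S
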