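import Pool.Agent.Lib.H31S.D

/-! # H31S, chunk C2: optimal weights -/

set_option autoImplicit false

namespace H31S

open Finset

variable {V : Type*} [Fintype V] [DecidableEq V]

private theorem cont_cut (S : Finset V) : Continuous fun p : (V → V → ℝ) × ℝ => cut p.1 S := by
  unfold cut
  fun_prop

private theorem cont_deg (v : V) : Continuous fun p : (V → V → ℝ) × ℝ => deg p.1 v := by
  unfold deg
  fun_prop

private theorem closed_wt (G : Finset (Sym2 V)) : IsClosed {p : (V → V → ℝ) × ℝ | Wt G p.1} := by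
  have h : {p : (V → V → ℝ) × ℝ | Wt G p.1} = (⋂ u, ⋂ v, {p | p.1 u v = p.1 v u}) ∩
      ((⋂ u, ⋂ v, {p | 0 ≤ p.1 u v}) ∩ ⋂ u, ⋂ v, ⋂ _ : s(u, v) ∉ G, {p | p.1 u v = 0}) := by
    ext p
    simp only [Set.mem_setOf_eq, Set.mem_inter_iff, Set.mem_iInter]
    exact ⟨fun h => ⟨h.symm, h.nn, h.supp⟩, fun h => ⟨h.1, h.2.1, h.2.2⟩⟩
  rw [h]
  refine IsClosed.inter ?_ (IsClosed.inter ?_ ?_)
  · exact isClosed_iInter fun u => isClosed_iInter fun v => isClosed_eq (by fun_prop) (by fun_prop)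
  · exact isClosed_iInter fun u => isClosed_iInter fun v => isClosed_le (by fun_prop) (by fun_prop)
  · exact isClosed_iInter fun u => isClosed_iInter fun v => isClosed_iInter fun _ =>
      isClosed_eq (by fun_prop) (by fun_prop)

private theorem closed_feas (G : Finset (Sym2 V)) (A : Finset V) :
    IsClosed {p : (V → V → ℝ) × ℝ | Feas G A p.1} := by
  have h : {p : (V → V → ℝ) × ℝ | Feas G A p.1} = {p | Wt G p.1} ∩
      ((⋂ v, {p | deg p.1 v ≤ 2}) ∩ ⋂ S, ⋂ _ : Sep A S, {p | 2 ≤ cut p.1 S}) := by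
    ext p
    simp only [Set.mem_setOf_eq, Set.mem_inter_iff, Set.mem_iInter]
    exact ⟨fun h => ⟨h.wt, h.deg_le, h.sep⟩, fun h => ⟨h.1, h.2.1, h.2.2⟩⟩
  rw [h]
  refine IsClosed.inter (closed_wt G) (IsClosed.inter ?_ ?_)
  · exact isClosed_iInter fun v => isClosed_le (cont_deg v) continuous_const
  · exact isClosed_iInter fun S => isClosed_iInter fun _ => isClosed_le continuous_const (cont_cut S)

private theorem closed_fl (A : Finset V) (b : V) (β : ℝ) :
    IsClosed {p : (V → V → ℝ) × ℝ | FL p.1 A b β} := by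
  have h : {p : (V → V → ℝ) × ℝ | FL p.1 A b β} =
      ⋂ S, ⋂ _ : b ∈ S, ⋂ _ : Disjoint S A, {p | β ≤ cut p.1 S} := by
    ext p
    simp only [Set.mem_setOf_eq, Set.mem_iInter]
    exact ⟨fun h => h, fun h => h⟩
  rw [h]
  exact isClosed_iInter fun S => isClosed_iInter fun _ => isClosed_iInter fun _ =>
    isClosed_le continuous_const (cont_cut S)

private theorem closed_fl2 (A : Finset V) (d : V) : IsClosed {p : (V → V → ℝ) × ℝ | FL p.1 A d p.2} := by
  have h : {p : (V → V → ℝ) × ℝ | FL p.1 A d p.2} =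
      ⋂ S, ⋂ _ : d ∈ S, ⋂ _ : Disjoint S A, {p | p.2 ≤ cut p.1 S} := by
    ext p
    simp only [Set.mem_setOf_eq, Set.mem_iInter]
    exact ⟨fun h => h, fun h => h⟩
  rw [h]
  exact isClosed_iInter fun S => isClosed_iInter fun _ => isClosed_iInter fun _ =>
    isClosed_le continuous_snd (cont_cut S)

private theorem in_box {G : Finset (Sym2 V)} {A : Finset V} {x : V → V → ℝ} (hx : Feas G A x) :
    x ∈ Set.Icc (fun _ _ => (0 : ℝ)) fun _ _ => (2 : ℝ) := by
  refine ⟨fun u v => hx.wt.nn u v, fun u v => ?_⟩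
  refine le_trans ?_ (hx.deg_le u)
  unfold deg
  exact Finset.single_le_sum (f := fun w => x u w) (fun w _ => hx.wt.nn u w) (mem_univ v)

theorem exists_opt {G : Finset (Sym2 V)} {A : Finset V} {b d : V} {x0 : V → V → ℝ} (hdA : d ∉ A)
    (hx0 : Feas G A x0) (hb0 : FL x0 A b 2) :
    ∃ (θ : ℝ) (x : V → V → ℝ), Feas G A x ∧ FL x A b 2 ∧ FL x A d θ ∧
      (∀ y, Feas G A y → FL y A b 2 → FL y A d θ → ∑ u, ∑ v, x u v ≤ ∑ u, ∑ v, y u v) ∧
      ∀ (y : V → V → ℝ) (δ : ℝ), Feas G A y → FL y A b 2 → FL y A d δ → δ ≤ θ := by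
  have hbox : IsCompact ((Set.Icc (fun _ _ => (0 : ℝ)) fun _ _ => (2 : ℝ)) ×ˢ Set.Icc (0 : ℝ) 2 :
      Set ((V → V → ℝ) × ℝ)) := isCompact_Icc.prod isCompact_Icc
  have hK : IsCompact ({p : (V → V → ℝ) × ℝ | Feas G A p.1} ∩ ({p | FL p.1 A b 2} ∩
      ({p | FL p.1 A d p.2} ∩ {p | 0 ≤ p.2 ∧ p.2 ≤ 2}))) := by
    refine hbox.of_isClosed_subset ?_ ?_
    · refine (closed_feas G A).inter ((closed_fl A b 2).inter ((closed_fl2 A d).inter ?_))
      exact (isClosed_le continuous_const continuous_snd).inter (isClosed_le continuous_snd continuous_const)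
    · rintro ⟨x, t⟩ ⟨h1, -, -, h2⟩
      exact ⟨in_box h1, h2⟩
  have hne : ({p : (V → V → ℝ) × ℝ | Feas G A p.1} ∩ ({p | FL p.1 A b 2} ∩
      ({p | FL p.1 A d p.2} ∩ {p | 0 ≤ p.2 ∧ p.2 ≤ 2}))).Nonempty :=
    ⟨(x0, 0), hx0, hb0, fun S _ _ => cut_nonneg hx0.wt S, le_refl _, by norm_num⟩
  obtain ⟨⟨x1, θ⟩, ⟨h1, h2, h3, h4⟩, hmax⟩ := hK.exists_isMaxOn hne continuous_snd.continuousOn
  have h1' : Feas G A x1 := h1
  have h2' : FL x1 A b 2 := h2
  have h3' : FL x1 A d θ := h3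
  have h4' : 0 ≤ θ := h4.1
  have hK2 : IsCompact {x : V → V → ℝ | Feas G A x ∧ FL x A b 2 ∧ FL x A d θ} := by
    refine (isCompact_Icc : IsCompact (Set.Icc (fun _ _ => (0 : ℝ)) fun _ _ => (2 : ℝ))).of_isClosed_subset ?_
      fun x h => in_box h.1
    have hc : Continuous fun x : V → V → ℝ => (x, (0 : ℝ)) := by fun_prop
    exact ((closed_feas G A).preimage hc).inter (((closed_fl A b 2).preimage hc).inter
      ((closed_fl A d θ).preimage hc))
  obtain ⟨x, ⟨g1, g2, g3⟩, hmin⟩ := hK2.exists_isMinOn ⟨x1, h1', h2', h3'⟩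
    (f := fun x : V → V → ℝ => ∑ u, ∑ v, x u v) (by fun_prop)
  refine ⟨θ, x, g1, g2, g3, fun y k1 k2 k3 => hmin ⟨k1, k2, k3⟩, fun y δ k1 k2 k3 => ?_⟩
  by_cases hδ : 0 ≤ δ
  · have h5 : δ ≤ cut y {d} := k3 {d} (mem_singleton_self d) (disjoint_singleton_left.2 hdA)
    have h6 : cut y {d} ≤ deg y d := by
      unfold cut deg
      rw [sum_singleton]
      exact Finset.sum_le_sum_of_subset_of_nonneg (subset_univ _) fun w _ _ => k1.wt.nn d w
    have h7 := k1.deg_le d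
    exact hmax (show (y, δ) ∈ _ from ⟨k1, k2, k3, hδ, by linarith⟩)
  · linarith

end H31S
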