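import Pool.Agent.Lib.H31S.D

/-! # H31S, chunk C3: tight cuts of optimal weights -/

set_option autoImplicit false

namespace H31S

open Finset

variable {V : Type*} [Fintype V] [DecidableEq V]

/-- The edge `uv` lies in a tight cut. -/
def Tight (x : V → V → ℝ) (A : Finset V) (b : V) (β : ℝ) (d : V) (δ : ℝ) (u v : V) : Prop :=
  ∃ T : Finset V, u ∈ T ∧ v ∉ T ∧ ((Sep A T ∧ cut x T ≤ 2) ∨ (b ∈ T ∧ Disjoint T A ∧ cut x T ≤ β) ∨
    (b ∉ T ∧ Disjoint Tᶜ A ∧ cut x T ≤ β) ∨ (d ∈ T ∧ Disjoint T A ∧ cut x T ≤ δ) ∨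
    (d ∉ T ∧ Disjoint Tᶜ A ∧ cut x T ≤ δ))

private theorem edge_cut_zero {u v : V} {T : Finset V} (h : ¬ (u ∈ T ∧ v ∉ T)) (h' : ¬ (v ∈ T ∧ u ∉ T)) :
    cut (edge u v) T = 0 := by
  unfold cut
  refine Finset.sum_eq_zero fun p hp => Finset.sum_eq_zero fun q hq => ?_
  rw [Finset.mem_compl] at hq
  unfold edge
  rw [if_neg]
  intro he
  rw [Sym2.eq_iff] at he
  rcases he with ⟨rfl, rfl⟩ | ⟨rfl, rfl⟩
  · exact h ⟨hp, hq⟩
  · exact h' ⟨hp, hq⟩

private theorem ev_le {a c k : ℝ} (h : k < a) :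
    ∀ᶠ t : ℝ in nhdsWithin 0 (Set.Ioi 0), k ≤ 1 * a + -t * c := by
  have h1 : Filter.Tendsto (fun t : ℝ => 1 * a + -t * c) (nhdsWithin 0 (Set.Ioi 0)) (nhds (1 * a + -0 * c)) := by
    apply Filter.Tendsto.mono_left _ nhdsWithin_le_nhds
    exact (continuous_const.add (continuous_neg.mul continuous_const)).tendsto 0
  have h2 : k < 1 * a + -0 * c := by simpa using h
  exact (h1.eventually (lt_mem_nhds h2)).mono fun t ht => ht.le

private theorem ev_all {a c k : ℝ} {P : Prop} (h : P → k < a) :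
    ∀ᶠ t : ℝ in nhdsWithin 0 (Set.Ioi 0), P → k ≤ 1 * a + -t * c := by
  by_cases hP : P
  · exact (ev_le (c := c) (h hP)).mono fun t ht _ => ht
  · exact Filter.Eventually.of_forall fun t h => (hP h).elim

/-- (C3, M) PROOF. Suppose not. `u ≠ v` or (if `u = v`, handle separately: then the smaller weight `x` minus a multiple of
`edge u u` has the same cuts). Let `y t p q = x p q - t * edge u v p q`. For small `t > 0` (filter `nhdsWithin 0 (Set.Ioi 0)`,
`Filter.eventually_all` over the finitely many `T : Finset V`): `y t` is nonnegative (`x u v > 0`), symmetric, supported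
on `G` (`s(u, v) ∈ G` as `x u v > 0`), degrees are at most those of `x`, cuts not separating `u` from `v` are unchanged,
and for every `T` which separates `u` from `v` (replace `T` by `Tᶜ` to have `u ∈ T`) all three requirements are strict for
`x`, so they still hold. The sum of all weights is smaller: contradiction to `hmin`. -/
theorem tight_of_min {G : Finset (Sym2 V)} {A : Finset V} {b d : V} {β δ : ℝ} {x : V → V → ℝ} (hx : Feas G A x)
    (hb : FL x A b β) (hd : FL x A d δ)
    (hmin : ∀ y, Feas G A y → FL y A b β → FL y A d δ → ∑ u, ∑ v, x u v ≤ ∑ u, ∑ v, y u v)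
    (u v : V) (huv : 0 < x u v) : Tight x A b β d δ u v := by
  classical
  by_contra hT
  have hstr : ∀ T : Finset V, u ∈ T → v ∉ T → (Sep A T → 2 < cut x T) ∧ (b ∈ T → Disjoint T A → β < cut x T) ∧
      (b ∉ T → Disjoint Tᶜ A → β < cut x T) ∧ (d ∈ T → Disjoint T A → δ < cut x T) ∧
      (d ∉ T → Disjoint Tᶜ A → δ < cut x T) := by
    intro T h1 h2
    refine ⟨fun h => ?_, fun h h' => ?_, fun h h' => ?_, fun h h' => ?_, fun h h' => ?_⟩ <;> by_contra hc <;>
      refine hT ⟨T, h1, h2, ?_⟩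
    · exact Or.inl ⟨h, not_lt.1 hc⟩
    · exact Or.inr (Or.inl ⟨h, h', not_lt.1 hc⟩)
    · exact Or.inr (Or.inr (Or.inl ⟨h, h', not_lt.1 hc⟩))
    · exact Or.inr (Or.inr (Or.inr (Or.inl ⟨h, h', not_lt.1 hc⟩)))
    · exact Or.inr (Or.inr (Or.inr (Or.inr ⟨h, h', not_lt.1 hc⟩)))
  have hev : ∀ T : Finset V, ∀ᶠ t : ℝ in nhdsWithin 0 (Set.Ioi 0),
      (Sep A T → 2 ≤ 1 * cut x T + -t * cut (edge u v) T) ∧
      ((b ∈ T ∧ Disjoint T A) → β ≤ 1 * cut x T + -t * cut (edge u v) T) ∧
      ((d ∈ T ∧ Disjoint T A) → δ ≤ 1 * cut x T + -t * cut (edge u v) T) := by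
    intro T
    by_cases h1 : u ∈ T ∧ v ∉ T
    · obtain ⟨s1, s2, -, s4, -⟩ := hstr T h1.1 h1.2
      exact (ev_all s1).and ((ev_all fun h => s2 h.1 h.2).and (ev_all fun h => s4 h.1 h.2))
    · by_cases h2 : v ∈ T ∧ u ∉ T
      · obtain ⟨s1, -, s3, -, s5⟩ := hstr Tᶜ (Finset.mem_compl.2 h2.2) (fun h => Finset.mem_compl.1 h h2.1)
        rw [cut_compl hx.wt] at s1 s3 s5
        rw [compl_compl] at s3 s5
        refine (ev_all fun h => s1 ?_).and ((ev_all fun h => s3 (fun h' => Finset.mem_compl.1 h' h.1) h.2).and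
          (ev_all fun h => s5 (fun h' => Finset.mem_compl.1 h' h.1) h.2))
        obtain ⟨⟨a, ha, ha'⟩, c, hc, hc'⟩ := h
        exact ⟨⟨c, hc, Finset.mem_compl.2 hc'⟩, a, ha, fun h => Finset.mem_compl.1 h ha'⟩
      · refine Filter.Eventually.of_forall fun t => ?_
        rw [edge_cut_zero h1 h2, one_mul, mul_zero, add_zero]
        exact ⟨hx.sep T, fun h => hb T h.1 h.2, fun h => hd T h.1 h.2⟩
  have hpos : ∀ᶠ t : ℝ in nhdsWithin 0 (Set.Ioi 0), 0 < t := eventually_mem_nhdsWithin
  have hsm : ∀ᶠ t : ℝ in nhdsWithin 0 (Set.Ioi 0), 0 ≤ 1 * x u v + -t * 1 := ev_le huv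
  obtain ⟨t, ht1, ht2, ht3⟩ := ((Filter.eventually_all.2 hev).and (hpos.and hsm)).exists
  have hwt : Wt G (fun p q => 1 * x p q + -t * edge u v p q) := by
    refine ⟨fun p q => ?_, fun p q => ?_, fun p q hpq => ?_⟩
    · have e : edge u v p q = edge u v q p := by
        unfold edge
        rw [Sym2.eq_swap]
      show 1 * x p q + -t * edge u v p q = 1 * x q p + -t * edge u v q p
      rw [hx.wt.symm p q, e]
    · show 0 ≤ 1 * x p q + -t * edge u v p q
      by_cases he : s(p, q) = s(u, v)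
      · have e : edge u v p q = 1 := by
          unfold edge
          rw [if_pos he]
        have e2 : x p q = x u v := by
          rw [Sym2.eq_iff] at he
          rcases he with ⟨rfl, rfl⟩ | ⟨rfl, rfl⟩
          · rfl
          · exact hx.wt.symm _ _
        rw [e, e2]
        exact ht3
      · have e : edge u v p q = 0 := by
          unfold edge
          rw [if_neg he]
        rw [e, mul_zero, add_zero, one_mul]
        exact hx.wt.nn p q
    · show 1 * x p q + -t * edge u v p q = 0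
      have e : edge u v p q = 0 := by
        unfold edge
        rw [if_neg]
        intro he
        rw [he] at hpq
        exact huv.ne' (hx.wt.supp u v hpq)
      rw [e, hx.wt.supp p q hpq]
      ring
  have hdeg : ∀ w, 0 ≤ deg (edge u v) w := fun w => Finset.sum_nonneg fun q _ => by
    unfold edge
    split_ifs
    · exact zero_le_one
    · exact le_rfl
  have hfe : Feas G A (fun p q => 1 * x p q + -t * edge u v p q) := by
    refine ⟨hwt, fun w => ?_, fun S hS => ?_⟩
    · rw [deg_comb]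
      have h1 := hx.deg_le w
      have h2 := mul_nonneg ht2.le (hdeg w)
      linarith
    · rw [cut_comb]
      exact (ht1 S).1 hS
  have h := hmin _ hfe (fun S h1 h2 => by rw [cut_comb]; exact (ht1 S).2.1 ⟨h1, h2⟩)
    (fun S h1 h2 => by rw [cut_comb]; exact (ht1 S).2.2 ⟨h1, h2⟩)
  have h1 : ∑ p, ∑ q, (1 * x p q + -t * edge u v p q) = ∑ p, ∑ q, x p q - t * ∑ p, ∑ q, edge u v p q := by
    simp only [Finset.mul_sum, ← Finset.sum_sub_distrib]
    refine Finset.sum_congr rfl fun p _ => Finset.sum_congr rfl fun q _ => ?_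
    ring
  have h2 : 1 ≤ ∑ p, ∑ q, edge u v p q := by
    have h3 : (1 : ℝ) = edge u v u v := by
      unfold edge
      rw [if_pos rfl]
    have hnn : ∀ p q, 0 ≤ edge u v p q := fun p q => by
      unfold edge
      split_ifs
      · exact zero_le_one
      · exact le_rfl
    calc (1 : ℝ) = edge u v u v := h3
      _ ≤ ∑ q, edge u v u q := Finset.single_le_sum (f := fun q => edge u v u q) (fun q _ => hnn u q) (mem_univ v)
      _ ≤ ∑ p, ∑ q, edge u v p q := Finset.single_le_sum (f := fun p => ∑ q, edge u v p q)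
        (fun p _ => Finset.sum_nonneg fun q _ => hnn p q) (mem_univ u)
  rw [h1] at h
  have h4 : t * 1 ≤ t * ∑ p, ∑ q, edge u v p q := mul_le_mul_of_nonneg_left h2 ht2.le
  linarith

end H31S
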