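import Pool.Agent.Lib.H31S.C3

/-! # H31S, chunk C4: degree and flow -/

set_option autoImplicit false

namespace H31S

open Finset

variable {V : Type*} [Fintype V] [DecidableEq V]

/-- (C4, M) PROOF. Strong induction on the size of `S`. If `x u v = 0` for all `v ∈ S`: `deg_le_cut`. Otherwise
`0 < x u v` for some `v ∈ S`; let `T` be as in `Tight`. In each of the five cases `cut x T ≤ R` and `R ≤ cut x (S ∪ T)`:
(1) `S ∪ T` separates `A` as `S` is disjoint from `A`; (2), (4) `S ∪ T` contains `b` (`d`) and is disjoint from `A`;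
(3) `b ∉ T`: then `b ∉ S` (otherwise `b = u ∈ T`), so `(S ∪ T)ᶜ` contains `b` and is disjoint from `A`, use `cut_compl`;
(5) the same for `d`. By `submod`, `cut x (S ∩ T) ≤ cut x S`, and `S ∩ T` is smaller (`v ∈ S`, `v ∉ T`). -/
theorem deg_le {G : Finset (Sym2 V)} {A : Finset V} {b d : V} {β δ : ℝ} {x : V → V → ℝ} (hx : Feas G A x)
    (hb : FL x A b β) (hd : FL x A d δ) (ht : ∀ u v, 0 < x u v → Tight x A b β d δ u v)
    (u : V) (S : Finset V) (hu : u ∈ S) (hS : Disjoint S A) (hbS : b ∈ S → b = u) (hdS : d ∈ S → d = u) :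
    deg x u ≤ cut x S := by
  induction hn : S.card using Nat.strong_induction_on generalizing S with
  | _ n ih =>
    by_cases h : ∀ v ∈ S, x u v = 0
    · exact deg_le_cut hx.wt u S hu h
    push Not at h
    obtain ⟨v, hv, hv0⟩ := h
    obtain ⟨T, huT, hvT, hT⟩ := ht u v (lt_of_le_of_ne (hx.wt.nn u v) (Ne.symm hv0))
    have hkey : cut x T ≤ cut x (S ∪ T) := by
      rcases hT with ⟨⟨⟨a, ha, haT⟩, c, hc, hcT⟩, h2⟩ | ⟨hbT, hTA, h2⟩ | ⟨hbT, hTA, h2⟩ | ⟨hdT, hTA, h2⟩ | ⟨hdT, hTA, h2⟩
      · refine h2.trans (hx.sep _ ⟨⟨a, ha, mem_union_right _ haT⟩, c, hc, fun h3 => ?_⟩)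
        rcases mem_union.1 h3 with h4 | h4
        · exact Finset.disjoint_left.1 hS h4 hc
        · exact hcT h4
      · exact h2.trans (hb _ (mem_union_right _ hbT) (Finset.disjoint_union_left.2 ⟨hS, hTA⟩))
      · refine h2.trans ?_
        rw [← cut_compl hx.wt (S ∪ T)]
        refine hb _ ?_ (hTA.mono_left ?_)
        · rw [mem_compl, mem_union]
          rintro (h4 | h4)
          · exact hbT (hbS h4 ▸ huT)
          · exact hbT h4
        · exact compl_subset_compl.2 subset_union_right
      · exact h2.trans (hd _ (mem_union_right _ hdT) (Finset.disjoint_union_left.2 ⟨hS, hTA⟩))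
      · refine h2.trans ?_
        rw [← cut_compl hx.wt (S ∪ T)]
        refine hd _ ?_ (hTA.mono_left ?_)
        · rw [mem_compl, mem_union]
          rintro (h4 | h4)
          · exact hdT (hdS h4 ▸ huT)
          · exact hdT h4
        · exact compl_subset_compl.2 subset_union_right
    have hsub := submod hx.wt S T
    have hlt : (S ∩ T).card < n := by
      rw [← hn]
      exact card_lt_card ⟨inter_subset_left, fun h5 => hvT (mem_inter.1 (h5 hv)).2⟩
    have h6 := ih _ hlt (S ∩ T) (mem_inter.2 ⟨hu, huT⟩) (hS.mono_left inter_subset_left)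
      (fun h7 => hbS (mem_inter.1 h7).1) (fun h7 => hdS (mem_inter.1 h7).1) rfl
    linarith

end H31S
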