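import Pool.Agent.Lib.H31S.C1

/-! # H31S, chunk C5: a vertex saturated in two solutions -/

set_option autoImplicit false

namespace H31S

open Finset

variable {V : Type*} [Fintype V] [DecidableEq V]

/-- (C5, M) PROOF. Let `h` be the minimum of `cut x S` over the sets `S` with `u ∈ S`, `d ∈ S`, `b ∉ S`, `S` disjoint from
`A` (`{u, d}` is one), attained at `S0`; `h'` the minimum of `cut y S` over the sets with `u ∈ S`, `b ∈ S`, `d ∉ S`,
disjoint from `A`, attained at `S1`. If `2 ≤ h` then `FL x A u 2` (the four cases `b ∈ S`, `d ∈ S` or not), done by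
`feas_ins_of`. If `2 ≤ h'` the same with `y`. Otherwise for `S` with `u, b ∈ S`, `d ∉ S`: `submod` for `S`, `S0` gives
`cut x S + h ≥ cut x (S ∩ S0) + cut x (S ∪ S0) ≥ 2 + 2` (`hx1`, `hxb`), so `cut x S ≥ 4 - h`; and `cut y S ≥ h'`.
Symmetrically for `S` with `u, d ∈ S`, `b ∉ S`: `cut y S ≥ 4 - h'`, `cut x S ≥ h`. Let
`z = ((2 - h') x + (2 - h) y) / (4 - h - h')` (`cut_comb`, `deg_comb`): a convex combination, so feasible for `A`, and
`cut z S ≥ 2` for all `S` with `u ∈ S`, disjoint from `A`. So `Pi G (insert u A)`. -/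
theorem both_sat {G : Finset (Sym2 V)} {A : Finset V} {b d u : V} {x y : V → V → ℝ} (hx : Feas G A x)
    (hy : Feas G A y) (hxb : FL x A b 2) (hyd : FL y A d 2) (hub : u ≠ b) (hud : u ≠ d) (huA : u ∉ A)
    (hbA : b ∉ A) (hdA : d ∉ A) (hbd : b ≠ d)
    (hx1 : ∀ S : Finset V, u ∈ S → Disjoint S A → b ∉ S → d ∉ S → 2 ≤ cut x S)
    (hy1 : ∀ S : Finset V, u ∈ S → Disjoint S A → b ∉ S → d ∉ S → 2 ≤ cut y S) : Pi G (insert u A) := by
  classical
  obtain ⟨S0, hS0, hmin⟩ := Finset.exists_min_image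
    (univ.filter fun S : Finset V => u ∈ S ∧ d ∈ S ∧ b ∉ S ∧ Disjoint S A) (fun S => cut x S)
    ⟨{u, d}, by
      simp only [mem_filter, mem_univ, true_and, mem_insert, mem_singleton, true_or, or_true, not_or,
        disjoint_insert_left, disjoint_singleton_left]
      exact ⟨⟨hub.symm, hbd⟩, huA, hdA⟩⟩
  obtain ⟨S1, hS1, hmin'⟩ := Finset.exists_min_image
    (univ.filter fun S : Finset V => u ∈ S ∧ b ∈ S ∧ d ∉ S ∧ Disjoint S A) (fun S => cut y S)
    ⟨{u, b}, by
      simp only [mem_filter, mem_univ, true_and, mem_insert, mem_singleton, true_or, or_true, not_or,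
        disjoint_insert_left, disjoint_singleton_left]
      exact ⟨⟨hud.symm, hbd.symm⟩, huA, hbA⟩⟩
  simp only [mem_filter, mem_univ, true_and] at hS0 hmin hS1 hmin'
  obtain ⟨h, hh⟩ : ∃ h, h = cut x S0 := ⟨_, rfl⟩
  obtain ⟨h', hh'⟩ : ∃ h', h' = cut y S1 := ⟨_, rfl⟩
  rw [← hh] at hmin
  rw [← hh'] at hmin'
  by_cases h2 : 2 ≤ h
  · refine ⟨x, feas_ins_of hx fun S huS hSA => ?_⟩
    by_cases hbS : b ∈ S
    · exact hxb S hbS hSA
    · by_cases hdS : d ∈ S
      · exact h2.trans (hmin S ⟨huS, hdS, hbS, hSA⟩)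
      · exact hx1 S huS hSA hbS hdS
  by_cases h2' : 2 ≤ h'
  · refine ⟨y, feas_ins_of hy fun S huS hSA => ?_⟩
    by_cases hdS : d ∈ S
    · exact hyd S hdS hSA
    · by_cases hbS : b ∈ S
      · exact h2'.trans (hmin' S ⟨huS, hbS, hdS, hSA⟩)
      · exact hy1 S huS hSA hbS hdS
  push Not at h2 h2'
  have hpos : 0 < 4 - h - h' := by linarith
  obtain ⟨p, hp⟩ : ∃ p, p = (2 - h') / (4 - h - h') := ⟨_, rfl⟩
  obtain ⟨q, hq⟩ : ∃ q, q = (2 - h) / (4 - h - h') := ⟨_, rfl⟩
  have hp' : p * (4 - h - h') = 2 - h' := by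
    rw [hp]
    field_simp
  have hq' : q * (4 - h - h') = 2 - h := by
    rw [hq]
    field_simp
  have hp0 : 0 ≤ p := by
    rw [hp]
    exact div_nonneg (by linarith) hpos.le
  have hq0 : 0 ≤ q := by
    rw [hq]
    exact div_nonneg (by linarith) hpos.le
  have hpq : p + q = 1 := by
    have h1 : (p + q) * (4 - h - h') = 1 * (4 - h - h') := by
      rw [add_mul, hp', hq']
      ring
    exact mul_right_cancel₀ hpos.ne' h1
  have key : ∀ a c : ℝ, 2 ≤ a → 2 ≤ c → 2 ≤ p * a + q * c := by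
    intro a c ha hc
    nlinarith [mul_le_mul_of_nonneg_left ha hp0, mul_le_mul_of_nonneg_left hc hq0]
  have e1 : p * (4 - h) + q * h' = 2 := by
    have h1 : (p * (4 - h) + q * h') * (4 - h - h') = 2 * (4 - h - h') := by
      have : (p * (4 - h) + q * h') * (4 - h - h') =
          (p * (4 - h - h')) * (4 - h) + (q * (4 - h - h')) * h' := by ring
      rw [this, hp', hq']
      ring
    exact mul_right_cancel₀ hpos.ne' h1
  have e2 : p * h + q * (4 - h') = 2 := by
    have h1 : (p * h + q * (4 - h')) * (4 - h - h') = 2 * (4 - h - h') := by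
      have : (p * h + q * (4 - h')) * (4 - h - h') =
          (p * (4 - h - h')) * h + (q * (4 - h - h')) * (4 - h') := by ring
      rw [this, hp', hq']
      ring
    exact mul_right_cancel₀ hpos.ne' h1
  refine ⟨fun a c => p * x a c + q * y a c, feas_ins_of ⟨⟨?_, ?_, ?_⟩, ?_, ?_⟩ ?_⟩
  · intro a c
    show p * x a c + q * y a c = p * x c a + q * y c a
    rw [hx.wt.symm a c, hy.wt.symm a c]
  · intro a c
    exact add_nonneg (mul_nonneg hp0 (hx.wt.nn a c)) (mul_nonneg hq0 (hy.wt.nn a c))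
  · intro a c hac
    show p * x a c + q * y a c = 0
    rw [hx.wt.supp a c hac, hy.wt.supp a c hac]
    ring
  · intro v
    rw [deg_comb]
    have h1 := hx.deg_le v
    have h3 := hy.deg_le v
    nlinarith [mul_le_mul_of_nonneg_left h1 hp0, mul_le_mul_of_nonneg_left h3 hq0]
  · intro S hS
    rw [cut_comb]
    exact key _ _ (hx.sep S hS) (hy.sep S hS)
  · intro S huS hSA
    rw [cut_comb]
    by_cases hbS : b ∈ S <;> by_cases hdS : d ∈ S
    · exact key _ _ (hxb S hbS hSA) (hyd S hdS hSA)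
    · have h1 := submod hx.wt S S0
      have h3 : 2 ≤ cut x (S ∩ S0) := hx1 _ (mem_inter.2 ⟨huS, hS0.1⟩)
        (hSA.mono_left inter_subset_left) (fun hb => hS0.2.2.1 (mem_inter.1 hb).2)
        (fun hd => hdS (mem_inter.1 hd).1)
      have h4 : 2 ≤ cut x (S ∪ S0) := hxb _ (mem_union_left _ hbS)
        (disjoint_union_left.2 ⟨hSA, hS0.2.2.2⟩)
      have h5 : 4 - h ≤ cut x S := by linarith
      have h6 : h' ≤ cut y S := hmin' S ⟨huS, hbS, hdS, hSA⟩
      calc (2 : ℝ) = p * (4 - h) + q * h' := e1.symm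
        _ ≤ _ := add_le_add (mul_le_mul_of_nonneg_left h5 hp0) (mul_le_mul_of_nonneg_left h6 hq0)
    · have h1 := submod hy.wt S S1
      have h3 : 2 ≤ cut y (S ∩ S1) := hy1 _ (mem_inter.2 ⟨huS, hS1.1⟩)
        (hSA.mono_left inter_subset_left) (fun hb => hbS (mem_inter.1 hb).1)
        (fun hd => hS1.2.2.1 (mem_inter.1 hd).2)
      have h4 : 2 ≤ cut y (S ∪ S1) := hyd _ (mem_union_left _ hdS)
        (disjoint_union_left.2 ⟨hSA, hS1.2.2.2⟩)
      have h5 : 4 - h' ≤ cut y S := by linarith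
      have h6 : h ≤ cut x S := hmin S ⟨huS, hdS, hbS, hSA⟩
      calc (2 : ℝ) = p * h + q * (4 - h') := e2.symm
        _ ≤ _ := add_le_add (mul_le_mul_of_nonneg_left h6 hp0) (mul_le_mul_of_nonneg_left h5 hq0)
    · exact key _ _ (hx1 S huS hSA hbS hdS) (hy1 S huS hSA hbS hdS)

end H31S
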