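import Pool.Agent.Lib.H31S.C1

/-! # H31S, chunk C6: an edge at a saturated vertex -/

set_option autoImplicit false

namespace H31S

open Finset

variable {V : Type*} [Fintype V] [DecidableEq V]

/-- (C6, M) PROOF. Let `h` be the minimum of `cut x S` over the sets `S` with `u ∈ S`, `d ∈ S`, `b ∉ S`, `S` disjoint from
`A` (`{u, d}` is one). `h < 2`, otherwise `FL x A u 2` and `feas_ins_of` contradicts `hno`. Let `S0` be such a set with
`cut x S0 ≤ h` of smallest size. First claim: `submod` for `S`, `S0`: `cut x S + h ≥ cut x (S ∩ S0) + cut x (S ∪ S0) ≥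
2 + 2`. Second claim: as `cut x S0 < 2 ≤ deg x u`, by `deg_le_cut` some `v ∈ S0` has `x u v ≠ 0`, so `0 < x u v`. Let
`u ∈ T`, `v ∉ T`, and suppose `cut x T ≤ 2` in one of the three cases. In all three cases `2 ≤ cut x (S0 ∪ T)`:
(1) `S0 ∪ T` separates `A`; (2) it contains `b` and is disjoint from `A`; (3) `(S0 ∪ T)ᶜ` contains `b` (`b ∉ S0`) and is
disjoint from `A`, `cut_compl`. So `cut x (S0 ∩ T) ≤ cut x S0 ≤ h < 2`. If `d ∈ T`, `S0 ∩ T` is a smaller set of the
family: contradiction. If `d ∉ T`: contradiction to `hx1` for `S0 ∩ T`. -/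
theorem sat_edge {G : Finset (Sym2 V)} {A : Finset V} {b d u : V} {x : V → V → ℝ} (hx : Feas G A x)
    (hxb : FL x A b 2) (hub : u ≠ b) (hud : u ≠ d) (huA : u ∉ A) (hbA : b ∉ A) (hdA : d ∉ A) (hbd : b ≠ d)
    (hdeg : 2 ≤ deg x u) (hx1 : ∀ S : Finset V, u ∈ S → Disjoint S A → b ∉ S → d ∉ S → 2 ≤ cut x S)
    (hno : ¬ Pi G (insert u A)) :
    (∀ S : Finset V, u ∈ S → b ∈ S → d ∉ S → Disjoint S A → 2 < cut x S) ∧
      ∃ v, 0 < x u v ∧ ∀ T : Finset V, u ∈ T → v ∉ T → (Sep A T → 2 < cut x T) ∧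
        (b ∈ T → Disjoint T A → 2 < cut x T) ∧ (b ∉ T → Disjoint Tᶜ A → 2 < cut x T) := by
  classical
  obtain ⟨S1, hS1, hmin1⟩ := Finset.exists_min_image
    ((univ : Finset (Finset V)).filter fun S => u ∈ S ∧ d ∈ S ∧ b ∉ S ∧ Disjoint S A) (cut x)
    ⟨{u, d}, by
      refine Finset.mem_filter.2 ⟨mem_univ _, by simp, by simp, ?_, ?_⟩
      · simp only [mem_insert, mem_singleton, not_or]
        exact ⟨fun h => hub h.symm, hbd⟩
      · rw [Finset.disjoint_left]
        intro w hw hwA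
        rcases Finset.mem_insert.1 hw with h | h
        · exact huA (h ▸ hwA)
        · exact hdA (Finset.mem_singleton.1 h ▸ hwA)⟩
  obtain ⟨S0, hS0, hmin0⟩ := Finset.exists_min_image
    ((univ : Finset (Finset V)).filter fun S =>
      (u ∈ S ∧ d ∈ S ∧ b ∉ S ∧ Disjoint S A) ∧ cut x S ≤ cut x S1) Finset.card
    ⟨S1, Finset.mem_filter.2 ⟨mem_univ _, (Finset.mem_filter.1 hS1).2, le_refl _⟩⟩
  obtain ⟨⟨hu0, hd0, hb0, hA0⟩, hle0⟩ := (Finset.mem_filter.1 hS0).2
  have hlt : cut x S1 < 2 := by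
    by_contra hc
    rw [not_lt] at hc
    refine hno ⟨x, feas_ins_of hx fun S huS hSA => ?_⟩
    by_cases h1 : b ∈ S
    · exact hxb S h1 hSA
    by_cases h2 : d ∈ S
    · exact hc.trans (hmin1 S (Finset.mem_filter.2 ⟨mem_univ _, huS, h2, h1, hSA⟩))
    · exact hx1 S huS hSA h1 h2
  have hlt0 : cut x S0 < 2 := lt_of_le_of_lt hle0 hlt
  refine ⟨fun S huS hbS hdS hSA => ?_, ?_⟩
  · have h1 := submod hx.wt S S0
    have h2 : 2 ≤ cut x (S ∩ S0) := hx1 _ (mem_inter.2 ⟨huS, hu0⟩)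
      (hSA.mono_left inter_subset_left) (fun h => hb0 (mem_inter.1 h).2)
      (fun h => hdS (mem_inter.1 h).1)
    have h3 : 2 ≤ cut x (S ∪ S0) := hxb _ (mem_union_left _ hbS)
      (Finset.disjoint_union_left.2 ⟨hSA, hA0⟩)
    linarith
  · obtain ⟨v, hv0, hxv⟩ : ∃ v ∈ S0, x u v ≠ 0 := by
      by_contra hc
      push Not at hc
      have := deg_le_cut hx.wt u S0 hu0 hc
      linarith
    refine ⟨v, lt_of_le_of_ne (hx.wt.nn u v) (Ne.symm hxv), fun T huT hvT => ?_⟩
    have key : 2 ≤ cut x (S0 ∪ T) → 2 < cut x T := by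
      intro h1
      by_contra hc
      rw [not_lt] at hc
      have h2 := submod hx.wt S0 T
      have h3 : cut x (S0 ∩ T) ≤ cut x S0 := by linarith
      by_cases hdT : d ∈ T
      · have h4 := hmin0 (S0 ∩ T) (Finset.mem_filter.2 ⟨mem_univ _,
          ⟨mem_inter.2 ⟨hu0, huT⟩, mem_inter.2 ⟨hd0, hdT⟩, fun h => hb0 (mem_inter.1 h).1,
            hA0.mono_left inter_subset_left⟩, h3.trans hle0⟩)
        have h5 : (S0 ∩ T).card < S0.card := Finset.card_lt_card
          ⟨inter_subset_left, fun h => hvT (mem_inter.1 (h hv0)).2⟩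
        omega
      · have h4 : 2 ≤ cut x (S0 ∩ T) := hx1 _ (mem_inter.2 ⟨hu0, huT⟩)
          (hA0.mono_left inter_subset_left) (fun h => hb0 (mem_inter.1 h).1)
          (fun h => hdT (mem_inter.1 h).2)
        linarith
    refine ⟨fun hsep => key (hx.sep _ ?_), fun hbT hTA => key (hxb _ (mem_union_right _ hbT)
      (Finset.disjoint_union_left.2 ⟨hA0, hTA⟩)), fun hbT hTA => key ?_⟩
    · obtain ⟨⟨a, ha, haT⟩, a', ha', haT'⟩ := hsep
      refine ⟨⟨a, ha, mem_union_right _ haT⟩, a', ha', fun h => ?_⟩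
      rcases Finset.mem_union.1 h with h | h
      · exact Finset.disjoint_left.1 hA0 h ha'
      · exact haT' h
    · rw [← cut_compl hx.wt (S0 ∪ T)]
      refine hxb _ (Finset.mem_compl.2 fun h => ?_) (hTA.mono_left ?_)
      · rcases Finset.mem_union.1 h with h | h
        · exact hb0 h
        · exact hbT h
      · intro w hw
        exact Finset.mem_compl.2 fun h => (Finset.mem_compl.1 hw) (mem_union_right _ h)

end H31S
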