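import Pool.Agent.Lib.H31S.D
import Pool.Agent.Lib.H98M.M0

/-! # H31S, chunk C7: weights of a path -/

set_option autoImplicit false

namespace H31S

open Finset

variable {V : Type*} [Fintype V] [DecidableEq V]

open H98M

private theorem C7edge_nonneg (u v p q : V) : 0 ≤ edge u v p q := by
  unfold edge
  split_ifs <;> norm_num

private theorem C7deg_left {u v : V} (h : u ≠ v) : deg (edge u v) u = 1 := by
  unfold deg edge
  rw [Finset.sum_eq_single v]
  · simp
  · intro w _ hw
    rw [if_neg]
    intro h1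
    rw [Sym2.eq_iff] at h1
    rcases h1 with h1 | h1
    · exact hw h1.2
    · exact h h1.1
  · intro h1
    exact absurd (mem_univ v) h1

private theorem C7deg_right {u v : V} (h : u ≠ v) : deg (edge u v) v = 1 := by
  have h1 : edge u v = edge v u := by
    funext p q
    unfold edge
    rw [Sym2.eq_swap (a := u) (b := v)]
  rw [h1]
  exact C7deg_left h.symm

private theorem C7deg_other {u v w : V} (h : w ≠ u) (h' : w ≠ v) : deg (edge u v) w = 0 := by
  unfold deg edge
  apply Finset.sum_eq_zero
  intro q _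
  rw [if_neg]
  intro h1
  rw [Sym2.eq_iff] at h1
  rcases h1 with h1 | h1
  · exact h h1.1
  · exact h' h1.1

private theorem C7deg_add (x y : V → V → ℝ) (v : V) :
    deg (fun a c => x a c + y a c) v = deg x v + deg y v := by
  simp only [deg, Finset.sum_add_distrib]

private theorem C7cut_add (x y : V → V → ℝ) (S : Finset V) :
    cut (fun a c => x a c + y a c) S = cut x S + cut y S := by
  simp only [cut, Finset.sum_add_distrib]

private theorem C7cut_edge {u v : V} {S : Finset V} (hu : u ∈ S) (hv : v ∉ S) : 1 ≤ cut (edge u v) S := by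
  unfold cut
  have h1 : edge u v u v = 1 := by
    unfold edge
    rw [if_pos rfl]
  calc (1 : ℝ) = edge u v u v := h1.symm
    _ ≤ ∑ q ∈ Sᶜ, edge u v u q :=
        Finset.single_le_sum (f := fun q => edge u v u q) (fun q _ => C7edge_nonneg u v u q) (mem_compl.2 hv)
    _ ≤ _ := Finset.single_le_sum (f := fun p => ∑ q ∈ Sᶜ, edge u v p q)
        (fun p _ => Finset.sum_nonneg fun q _ => C7edge_nonneg u v p q) hu

private theorem C7walk {G : Finset (Sym2 V)} (H : SimpleGraph V) (hH : ∀ v w, H.Adj v w → s(v, w) ∈ G) :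
    ∀ {b u : V} (P : H.Walk b u), P.IsPath → ∃ p : V → V → ℝ, Wt G p ∧ (∀ v w, v ∉ P.support → p v w = 0) ∧
      (b = u → ∀ w, deg p w = 0) ∧ deg p b ≤ 1 ∧ deg p u ≤ 1 ∧
      (∀ w, deg p w ≤ 2) ∧ ∀ S : Finset V, b ∈ S → u ∉ S → 1 ≤ cut p S := by
  intro b u P
  induction P with
  | nil =>
    intro _
    refine ⟨fun _ _ => 0, ⟨fun _ _ => rfl, fun _ _ => le_refl _, fun _ _ _ => rfl⟩, fun _ _ _ => rfl, ?_, ?_, ?_, ?_,
      ?_⟩
    · intro _ w
      simp [deg]
    · simp [deg]
    · simp [deg]
    · intro w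
      simp [deg]
    · intro S h1 h2
      exact absurd h1 h2
  | @cons b b' u hadj P' ih =>
    intro hP
    rw [SimpleGraph.Walk.cons_isPath_iff] at hP
    obtain ⟨hP', hbP⟩ := hP
    obtain ⟨p, h1, h2, h3, h4, h5, h6, h7⟩ := ih hP'
    have hne : b ≠ b' := hadj.ne
    have hbu : b ≠ u := fun h => hbP (h ▸ P'.end_mem_support)
    have hpb : deg p b = 0 := Finset.sum_eq_zero fun w _ => h2 b w hbP
    refine ⟨fun a c => edge b b' a c + p a c, ⟨?_, ?_, ?_⟩, ?_, ?_, ?_, ?_, ?_, ?_⟩
    · intro v w
      have h8 : edge b b' v w = edge b b' w v := by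
        unfold edge
        rw [Sym2.eq_swap]
      simp only [h8, h1.symm v w]
    · intro v w
      exact add_nonneg (C7edge_nonneg _ _ _ _) (h1.nn v w)
    · intro v w hvw
      have h8 : edge b b' v w = 0 := by
        unfold edge
        rw [if_neg]
        intro h9
        rw [h9] at hvw
        exact hvw (hH b b' hadj)
      simp only [h8, h1.supp v w hvw, add_zero]
    · intro v w hv
      rw [SimpleGraph.Walk.support_cons, List.mem_cons, not_or] at hv
      have h8 : edge b b' v w = 0 := by
        unfold edge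
        rw [if_neg]
        intro h9
        rw [Sym2.eq_iff] at h9
        rcases h9 with h9 | h9
        · exact hv.1 h9.1
        · exact hv.2 (h9.1 ▸ P'.start_mem_support)
      simp only [h8, h2 v w hv.2, add_zero]
    · intro h
      exact absurd h hbu
    · rw [C7deg_add, C7deg_left hne, hpb, add_zero]
    · rw [C7deg_add]
      by_cases h8 : b' = u
      · rw [h3 h8 u, add_zero, ← h8, C7deg_right hne]
      · rw [C7deg_other hbu.symm (Ne.symm h8), zero_add]
        exact h5
    · intro w
      rw [C7deg_add]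
      by_cases h8 : w = b
      · rw [h8, C7deg_left hne, hpb]
        norm_num
      · by_cases h9 : w = b'
        · rw [h9, C7deg_right hne]
          linarith
        · rw [C7deg_other h8 h9, zero_add]
          exact h6 w
    · intro S h8 h9
      rw [C7cut_add]
      by_cases h10 : b' ∈ S
      · have h11 : 0 ≤ cut (edge b b') S :=
          Finset.sum_nonneg fun u _ => Finset.sum_nonneg fun v _ => C7edge_nonneg _ _ _ _
        have h12 := h7 S h10 h9
        linarith
      · have h11 := C7cut_edge h8 h10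
        have h12 := cut_nonneg h1 S
        linarith

/-- (C7a, M) PROOF. Let `H` be the simple graph with `H.Adj v w` iff `v ≠ w`, `v, w ∈ U`, `s(v, w) ∈ G`. As `¬ Disc U G`
there is a walk in `H` from `b` to `u` (the set of the vertices of `U` reachable from `b` is all of `U`), so a path. For
a path `P` from `b` to `u ≠ b` prove by induction on `P` (`SimpleGraph.Walk.cons`): there is `p` with all properties, and
in addition `p v w = 0` for `v` not in the support of `P`: for the path of length one `p = edge b u`; for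
`cons (b ~ b') P'` (`b'` is not `u`) add `edge b b'` to the weights of `P'` (`b` is not in the support of `P'`; the degree
of `b'` becomes at most `1 + 1`). Cut: if `b' ∈ S` use `P'`, otherwise the edge `b b'`. -/
theorem path_wt {G : Finset (Sym2 V)} {U : Finset V} {b u : V} (hb : b ∈ U) (hu : u ∈ U) (hbu : b ≠ u)
    (hU : ¬ Disc U G) : ∃ p : V → V → ℝ, Wt G p ∧ (∀ v w, v ∉ U → p v w = 0) ∧ deg p b ≤ 1 ∧ deg p u ≤ 1 ∧
      (∀ w, deg p w ≤ 2) ∧ ∀ S : Finset V, b ∈ S → u ∉ S → 1 ≤ cut p S := by
  classical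
  let H : SimpleGraph V :=
    { Adj := fun v w => v ≠ w ∧ v ∈ U ∧ w ∈ U ∧ s(v, w) ∈ G
      symm := ⟨fun v w h => ⟨h.1.symm, h.2.2.1, h.2.1, by rw [Sym2.eq_swap]; exact h.2.2.2⟩⟩
      loopless := ⟨fun v h => h.1 rfl⟩ }
  have hHG : ∀ v w, H.Adj v w → s(v, w) ∈ G := fun v w h => h.2.2.2
  have hHU : ∀ {b' u' : V} (P : H.Walk b' u'), b' ∈ U → ∀ v ∈ P.support, v ∈ U := by
    intro b' u' P
    induction P with
    | nil =>
      intro h v hv
      rw [SimpleGraph.Walk.support_nil, List.mem_singleton] at hv
      rw [hv]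
      exact h
    | @cons a c e hadj P' ih =>
      intro h v hv
      rw [SimpleGraph.Walk.support_cons, List.mem_cons] at hv
      rcases hv with rfl | hv
      · exact h
      · exact ih hadj.2.2.1 v hv
  have hr : H.Reachable b u := by
    by_contra hn
    apply hU
    refine ⟨U.filter fun v => H.Reachable b v, U.filter fun v => ¬ H.Reachable b v,
      ⟨b, mem_filter.2 ⟨hb, SimpleGraph.Reachable.refl b⟩⟩, ⟨u, mem_filter.2 ⟨hu, hn⟩⟩,
      disjoint_filter_filter_not _ _ _, filter_union_filter_not_eq _ _, ?_⟩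
    intro x hx y hy hxy
    rw [mem_filter] at hx hy
    have hne : x ≠ y := fun h => hy.2 (h ▸ hx.2)
    have hadj : H.Adj x y := ⟨hne, hx.1, hy.1, hxy⟩
    exact hy.2 (hx.2.trans hadj.reachable)
  obtain ⟨P, hP⟩ := hr.exists_isPath
  obtain ⟨p, h1, h2, h3, h4, h5, h6, h7⟩ := C7walk H hHG P hP
  exact ⟨p, h1, fun v w hv => h2 v w fun h => hv (hHU P hb v h), h4, h5, h6, h7⟩

end H31S
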