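import Pool.Agent.Lib.H31S.D
import Pool.Agent.Lib.H98M.M0

/-! # H31S, chunk C8: the first vertex without Q -/

set_option autoImplicit false

namespace H31S

open Finset

variable {V : Type*} [Fintype V] [DecidableEq V]

open H98M

private theorem c8_aux {G : Finset (Sym2 V)} {C : Finset V} {v w : V} (hC : ¬ Disc C G) (hv : v ∈ C)
    (hw : w ∉ C) (he : s(v, w) ∈ G) {A B : Finset V} (hB : B.Nonempty) (hAB : Disjoint A B)
    (hU : A ∪ B = insert w C) (hwA : w ∈ A) (h : ∀ x ∈ A, ∀ y ∈ B, s(x, y) ∉ G) : False := by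
  have hwB : w ∉ B := fun hwB => (Finset.disjoint_left.1 hAB) hwA hwB
  have hun : A.erase w ∪ B = C := by
    ext z
    have hz := Finset.ext_iff.1 hU z
    simp only [mem_union, mem_insert] at hz
    simp only [mem_union, mem_erase]
    constructor
    · rintro (⟨hzw, hzA⟩ | hzB)
      · exact (hz.1 (Or.inl hzA)).resolve_left hzw
      · rcases hz.1 (Or.inr hzB) with h1 | h1
        · exact absurd (h1 ▸ hzB) hwB
        · exact h1
    · intro hzC
      have hzw : z ≠ w := fun e => hw (e ▸ hzC)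
      rcases hz.2 (Or.inr hzC) with h1 | h1
      · exact Or.inl ⟨hzw, h1⟩
      · exact Or.inr h1
  have hdis : Disjoint (A.erase w) B := Finset.disjoint_of_subset_left (Finset.erase_subset _ _) hAB
  rcases (A.erase w).eq_empty_or_nonempty with h0 | h0
  · rw [h0, Finset.empty_union] at hun
    have hvB : v ∈ B := by rw [hun]; exact hv
    apply h w hwA v hvB
    rw [Sym2.eq_swap]
    exact he
  · exact hC ⟨A.erase w, B, h0, hB, hdis, hun, fun x hx y hy => h x (Finset.mem_of_mem_erase hx) y hy⟩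

private theorem c8_insert {G : Finset (Sym2 V)} {C : Finset V} {v w : V} (hC : ¬ Disc C G) (hv : v ∈ C)
    (hw : w ∉ C) (he : s(v, w) ∈ G) : ¬ Disc (insert w C) G := by
  rintro ⟨A, B, hA, hB, hAB, hU, h⟩
  have hwm : w ∈ A ∪ B := by rw [hU]; exact Finset.mem_insert_self w C
  rcases Finset.mem_union.1 hwm with h1 | h1
  · exact c8_aux hC hv hw he hB hAB hU h1 h
  · exact c8_aux hC hv hw he hA hAB.symm (by rw [Finset.union_comm]; exact hU) h1
      (fun x hx y hy => by rw [Sym2.eq_swap]; exact h y hy x hx)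

/-- (C8, S-M) PROOF. Let `C` be a set of largest size among the sets `C ⊆ U` with `b ∈ C`, `¬ Disc C G` and `Q w` for all
`w ∈ C`, `w ≠ b` (`{b}` is one: `Disc` of a set with one element is impossible). If `d ∈ C` take `u = d`, `U' = C`.
Otherwise `C ≠ U`, so (`¬ Disc U G` for the parts `C`, `U \ C`) there are `v ∈ C`, `w ∈ U \ C` with `s(v, w) ∈ G`. Then
`insert w C` is connected, so by maximality `¬ Q w`; take `u = w`, `U' = insert w C` (`w ≠ b`). -/
theorem target {G : Finset (Sym2 V)} {U : Finset V} {b d : V} (Q : V → Prop) (hb : b ∈ U) (hd : d ∈ U)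
    (hbd : b ≠ d) (hU : ¬ Disc U G) : ∃ (u : V) (U' : Finset V), U' ⊆ U ∧ b ∈ U' ∧ u ∈ U' ∧ b ≠ u ∧ ¬ Disc U' G ∧
      (∀ w ∈ U', w ≠ b → w ≠ u → Q w) ∧ (u = d ∨ ¬ Q u) := by
  classical
  have hne : (U.powerset.filter fun C => b ∈ C ∧ ¬ Disc C G ∧ ∀ w ∈ C, w ≠ b → Q w).Nonempty := by
    refine ⟨{b}, Finset.mem_filter.2 ⟨Finset.mem_powerset.2 (Finset.singleton_subset_iff.2 hb),
      Finset.mem_singleton_self b, ?_, ?_⟩⟩
    · rintro ⟨A, B, ⟨x, hx⟩, ⟨y, hy⟩, hAB, hun, _⟩
      have hx' : x ∈ ({b} : Finset V) := by rw [← hun]; exact Finset.mem_union_left _ hx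
      have hy' : y ∈ ({b} : Finset V) := by rw [← hun]; exact Finset.mem_union_right _ hy
      rw [Finset.mem_singleton] at hx' hy'
      subst hx'
      subst hy'
      exact (Finset.disjoint_left.1 hAB) hx hy
    · intro w hw hwb
      exact absurd (Finset.mem_singleton.1 hw) hwb
  obtain ⟨C, hC, hmax⟩ := Finset.exists_max_image _ Finset.card hne
  obtain ⟨hCU, hbC, hCc, hCQ⟩ := Finset.mem_filter.1 hC
  rw [Finset.mem_powerset] at hCU
  by_cases hdC : d ∈ C
  · exact ⟨d, C, hCU, hbC, hdC, hbd, hCc, fun w hw hwb _ => hCQ w hw hwb, Or.inl rfl⟩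
  · have hex : ∃ v ∈ C, ∃ w ∈ U \ C, s(v, w) ∈ G := by
      by_contra hcon
      push Not at hcon
      exact hU ⟨C, U \ C, ⟨b, hbC⟩, ⟨d, Finset.mem_sdiff.2 ⟨hd, hdC⟩⟩, Finset.disjoint_sdiff,
        Finset.union_sdiff_of_subset hCU, hcon⟩
    obtain ⟨v, hv, w, hw, he⟩ := hex
    obtain ⟨hwU, hwC⟩ := Finset.mem_sdiff.1 hw
    have hwb : w ≠ b := fun e => hwC (e ▸ hbC)
    have hins := c8_insert hCc hv hwC he
    have hsub : insert w C ⊆ U := Finset.insert_subset hwU hCU
    have hnQ : ¬ Q w := by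
      intro hQ
      have hm : insert w C ∈ U.powerset.filter fun C => b ∈ C ∧ ¬ Disc C G ∧ ∀ w ∈ C, w ≠ b → Q w := by
        refine Finset.mem_filter.2 ⟨Finset.mem_powerset.2 hsub, Finset.mem_insert_of_mem hbC, hins, ?_⟩
        intro z hz hzb
        rcases Finset.mem_insert.1 hz with h1 | h1
        · rw [h1]; exact hQ
        · exact hCQ z h1 hzb
      have := hmax _ hm
      rw [Finset.card_insert_of_notMem hwC] at this
      omega
    refine ⟨w, insert w C, hsub, Finset.mem_insert_of_mem hbC, Finset.mem_insert_self w C, hwb.symm, hins,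
      ?_, Or.inr hnQ⟩
    intro z hz hzb hzw
    exact hCQ z ((Finset.mem_insert.1 hz).resolve_left hzw) hzb

end H31S
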