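import Pool.Agent.Lib.H31S.D

/-! # H31S, chunk C9: the perturbation -/

set_option autoImplicit false

namespace H31S

open Finset

variable {V : Type*} [Fintype V] [DecidableEq V]

private theorem ev_lt {a b c : ℝ} (hca : c ≤ a) (h : c < a ∨ c < b) :
    ∀ᶠ ε in nhdsWithin (0 : ℝ) (Set.Ioi 0), c < (1 - ε) * a + ε * b := by
  rcases h with h | h
  · have h1 : Filter.Tendsto (fun ε : ℝ => (1 - ε) * a + ε * b) (nhdsWithin 0 (Set.Ioi 0)) (nhds a) := by
      have h2 : Continuous fun ε : ℝ => (1 - ε) * a + ε * b := by fun_prop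
      have h3 := h2.tendsto 0
      have h4 : (1 - (0 : ℝ)) * a + 0 * b = a := by ring
      rw [h4] at h3
      exact h3.mono_left nhdsWithin_le_nhds
    exact h1.eventually (lt_mem_nhds h)
  · have h1 : ∀ᶠ ε in nhdsWithin (0 : ℝ) (Set.Ioi 0), ε ∈ Set.Ioc (0 : ℝ) 1 :=
      Ioc_mem_nhdsGT one_pos
    filter_upwards [h1] with ε hε
    have h2 : (1 - ε) * c ≤ (1 - ε) * a := mul_le_mul_of_nonneg_left hca (by linarith [hε.2])
    have h3 : ε * c < ε * b := mul_lt_mul_of_pos_left h hε.1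
    linarith

private theorem ev_le {a b c : ℝ} (hca : c ≤ a) (h : c < a ∨ c ≤ b) :
    ∀ᶠ ε in nhdsWithin (0 : ℝ) (Set.Ioi 0), c ≤ (1 - ε) * a + ε * b := by
  rcases h with h | h
  · filter_upwards [ev_lt (b := b) hca (Or.inl h)] with ε hε
    exact hε.le
  · have h1 : ∀ᶠ ε in nhdsWithin (0 : ℝ) (Set.Ioi 0), ε ∈ Set.Ioc (0 : ℝ) 1 :=
      Ioc_mem_nhdsGT one_pos
    filter_upwards [h1] with ε hε
    have h2 : (1 - ε) * c ≤ (1 - ε) * a := mul_le_mul_of_nonneg_left hca (by linarith [hε.2])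
    have h3 : ε * c ≤ ε * b := mul_le_mul_of_nonneg_left h hε.1.le
    linarith

/-- (C9, M) PROOF. For small `ε > 0` let `z = (1 - ε) x + ε w` (`cut_comb`, `deg_comb`). Each of the finitely many
conditions holds for all small `ε > 0` (filter `nhdsWithin 0 (Set.Ioi 0)`, `Filter.eventually_all` over `v`, over pairs,
over `T : Finset V`): `0 ≤ z u v` (if `0 < x u v` by continuity, if `0 ≤ w u v` clear for `ε ≤ 1`), degree `≤ 2`
(if `deg x v < 2` by continuity, if `deg w v ≤ 2` convexity), the cuts in the same way. For the cuts `S` with `d ∈ S`,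
disjoint from `A`: `θ < cut z S` (by continuity, or `(1 - ε) θ + ε cut w S > θ`). Let `θ'` be the minimum of the numbers
`cut z S` over these finitely many `S` (`{d}` may not be one if `d ∈ A`: if there is none take `θ' = θ + 1`). -/
theorem perturb {G : Finset (Sym2 V)} {A : Finset V} {b d : V} {x w : V → V → ℝ} {θ : ℝ} (hx : Feas G A x)
    (hb : FL x A b 2) (hd : FL x A d θ) (hws : ∀ u v, w u v = w v u) (hw0 : ∀ u v, s(u, v) ∉ G → w u v = 0)
    (hwn : ∀ u v, 0 < x u v ∨ 0 ≤ w u v) (hdeg : ∀ v, deg x v < 2 ∨ deg w v ≤ 2)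
    (hA : ∀ T, Sep A T → 2 < cut x T ∨ 2 ≤ cut w T)
    (hB : ∀ S, b ∈ S → Disjoint S A → 2 < cut x S ∨ 2 ≤ cut w S)
    (hD : ∀ S, d ∈ S → Disjoint S A → θ < cut x S ∨ θ < cut w S) :
    ∃ (z : V → V → ℝ) (θ' : ℝ), θ < θ' ∧ Feas G A z ∧ FL z A b 2 ∧ FL z A d θ' := by
  classical
  have e1 : ∀ᶠ ε in nhdsWithin (0 : ℝ) (Set.Ioi 0), ∀ u v, 0 ≤ (1 - ε) * x u v + ε * w u v :=
    Filter.eventually_all.2 fun u => Filter.eventually_all.2 fun v => ev_le (hx.wt.nn u v) (hwn u v)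
  have e2 : ∀ᶠ ε in nhdsWithin (0 : ℝ) (Set.Ioi 0), ∀ v, (1 - ε) * deg x v + ε * deg w v ≤ 2 := by
    refine Filter.eventually_all.2 fun v => ?_
    have h1 : -2 < -deg x v ∨ -2 ≤ -deg w v := by
      rcases hdeg v with h | h
      · exact Or.inl (by linarith)
      · exact Or.inr (by linarith)
    filter_upwards [ev_le (by linarith [hx.deg_le v]) h1] with ε hε
    linarith
  have e3 : ∀ᶠ ε in nhdsWithin (0 : ℝ) (Set.Ioi 0), ∀ S : Finset V, Sep A S → 2 ≤ (1 - ε) * cut x S + ε * cut w S := by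
    refine Filter.eventually_all.2 fun S => ?_
    by_cases hS : Sep A S
    · filter_upwards [ev_le (hx.sep S hS) (hA S hS)] with ε hε _
      exact hε
    · exact Filter.Eventually.of_forall fun ε h => (hS h).elim
  have e4 : ∀ᶠ ε in nhdsWithin (0 : ℝ) (Set.Ioi 0), ∀ S : Finset V, b ∈ S → Disjoint S A →
      2 ≤ (1 - ε) * cut x S + ε * cut w S := by
    refine Filter.eventually_all.2 fun S => ?_
    by_cases hS : b ∈ S ∧ Disjoint S A
    · filter_upwards [ev_le (hb S hS.1 hS.2) (hB S hS.1 hS.2)] with ε hε _ _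
      exact hε
    · exact Filter.Eventually.of_forall fun ε h h' => (hS ⟨h, h'⟩).elim
  have e5 : ∀ᶠ ε in nhdsWithin (0 : ℝ) (Set.Ioi 0), ∀ S : Finset V, d ∈ S → Disjoint S A →
      θ < (1 - ε) * cut x S + ε * cut w S := by
    refine Filter.eventually_all.2 fun S => ?_
    by_cases hS : d ∈ S ∧ Disjoint S A
    · filter_upwards [ev_lt (hd S hS.1 hS.2) (hD S hS.1 hS.2)] with ε hε _ _
      exact hε
    · exact Filter.Eventually.of_forall fun ε h h' => (hS ⟨h, h'⟩).elim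
  obtain ⟨ε, h1, h2, h3, h4, h5⟩ := (e1.and (e2.and (e3.and (e4.and e5)))).exists
  obtain ⟨z, hz⟩ : ∃ z : V → V → ℝ, z = fun u v => (1 - ε) * x u v + ε * w u v := ⟨_, rfl⟩
  have hcut : ∀ S, cut z S = (1 - ε) * cut x S + ε * cut w S := fun S => by rw [hz, cut_comb]
  have hdg : ∀ v, deg z v = (1 - ε) * deg x v + ε * deg w v := fun v => by rw [hz, deg_comb]
  have hfe : Feas G A z := by
    refine ⟨⟨fun u v => ?_, fun u v => ?_, fun u v huv => ?_⟩, fun v => ?_, fun S hS => ?_⟩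
    · rw [hz]
      show (1 - ε) * x u v + ε * w u v = (1 - ε) * x v u + ε * w v u
      rw [hx.wt.symm u v, hws u v]
    · rw [hz]
      exact h1 u v
    · rw [hz]
      show (1 - ε) * x u v + ε * w u v = 0
      rw [hx.wt.supp u v huv, hw0 u v huv]
      ring
    · rw [hdg]
      exact h2 v
    · rw [hcut]
      exact h3 S hS
  have hzb : FL z A b 2 := fun S hS hSA => by
    rw [hcut]
    exact h4 S hS hSA
  by_cases hne : (univ.filter fun S : Finset V => d ∈ S ∧ Disjoint S A).Nonempty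
  · obtain ⟨S0, hS0, hmin⟩ := Finset.exists_min_image _ (fun S => cut z S) hne
    have hS0' := (Finset.mem_filter.1 hS0).2
    refine ⟨z, cut z S0, ?_, hfe, hzb, fun S hS hSA => hmin S (Finset.mem_filter.2 ⟨Finset.mem_univ _, hS, hSA⟩)⟩
    rw [hcut]
    exact h5 S0 hS0'.1 hS0'.2
  · refine ⟨z, θ + 1, by linarith, hfe, hzb, fun S hS hSA => ?_⟩
    exact (hne ⟨S, Finset.mem_filter.2 ⟨Finset.mem_univ _, hS, hSA⟩⟩).elim

end H31S
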