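import Mathlib

/-!
# H31S: fractional Hamiltonian cycles (subtour polytope), definitions and basic facts
-/

set_option autoImplicit false

namespace H31S

open Finset

variable {V : Type*} [Fintype V] [DecidableEq V]

/-- The weight of the cut between `S` and its complement. -/
def cut (x : V → V → ℝ) (S : Finset V) : ℝ := ∑ u ∈ S, ∑ v ∈ Sᶜ, x u v

/-- The degree. -/
def deg (x : V → V → ℝ) (v : V) : ℝ := ∑ w, x v w

/-- Symmetric nonnegative weights on the edges of `G`. -/
structure Wt (G : Finset (Sym2 V)) (x : V → V → ℝ) : Prop where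
  symm : ∀ u v, x u v = x v u
  nn : ∀ u v, 0 ≤ x u v
  supp : ∀ u v, s(u, v) ∉ G → x u v = 0

/-- `S` separates `A`. -/
def Sep (A S : Finset V) : Prop := (∃ a ∈ A, a ∈ S) ∧ ∃ a ∈ A, a ∉ S

/-- Feasible weights for `A`. -/
structure Feas (G : Finset (Sym2 V)) (A : Finset V) (x : V → V → ℝ) : Prop where
  wt : Wt G x
  deg_le : ∀ v, deg x v ≤ 2
  sep : ∀ S, Sep A S → 2 ≤ cut x S

/-- The covering predicate. -/
def Pi (G : Finset (Sym2 V)) (A : Finset V) : Prop := ∃ x, Feas G A x

/-- The flow from `b` to `A` is at least `β`. -/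
def FL (x : V → V → ℝ) (A : Finset V) (b : V) (β : ℝ) : Prop := ∀ S, b ∈ S → Disjoint S A → β ≤ cut x S

theorem cut_eq_ite (x : V → V → ℝ) (S : Finset V) :
    cut x S = ∑ u, ∑ v, if u ∈ S ∧ v ∉ S then x u v else 0 := by
  unfold cut
  rw [← Finset.sum_filter_add_sum_filter_not univ (fun u => u ∈ S)]
  have h1 : ∑ u ∈ univ.filter (fun u => ¬ u ∈ S), ∑ v, (if u ∈ S ∧ v ∉ S then x u v else 0) = 0 := by
    apply Finset.sum_eq_zero
    intro u hu
    apply Finset.sum_eq_zero
    intro v _
    rw [if_neg]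
    exact fun h => (Finset.mem_filter.1 hu).2 h.1
  rw [h1, add_zero, Finset.filter_mem_eq_inter, Finset.univ_inter]
  apply Finset.sum_congr rfl
  intro u hu
  rw [← Finset.sum_filter]
  apply Finset.sum_congr _ fun _ _ => rfl
  ext v
  simp [hu]

theorem cut_nonneg {G : Finset (Sym2 V)} {x : V → V → ℝ} (hx : Wt G x) (S : Finset V) : 0 ≤ cut x S :=
  Finset.sum_nonneg fun u _ => Finset.sum_nonneg fun v _ => hx.nn u v

theorem cut_compl {G : Finset (Sym2 V)} {x : V → V → ℝ} (hx : Wt G x) (S : Finset V) : cut x Sᶜ = cut x S := by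
  unfold cut
  rw [compl_compl, Finset.sum_comm]
  exact Finset.sum_congr rfl fun u _ => Finset.sum_congr rfl fun v _ => hx.symm v u

theorem submod {G : Finset (Sym2 V)} {x : V → V → ℝ} (hx : Wt G x) (S T : Finset V) :
    cut x (S ∩ T) + cut x (S ∪ T) ≤ cut x S + cut x T := by
  simp only [cut_eq_ite, ← Finset.sum_add_distrib]
  refine Finset.sum_le_sum fun u _ => Finset.sum_le_sum fun v _ => ?_
  have h := hx.nn u v
  simp only [mem_inter, mem_union]
  by_cases h1 : u ∈ S <;> by_cases h2 : u ∈ T <;> by_cases h3 : v ∈ S <;> by_cases h4 : v ∈ T <;>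
    simp [h1, h2, h3, h4, h]

theorem posimod {G : Finset (Sym2 V)} {x : V → V → ℝ} (hx : Wt G x) (S T : Finset V) :
    cut x (S \ T) + cut x (T \ S) ≤ cut x S + cut x T := by
  have h := submod hx S Tᶜ
  rw [cut_compl hx T] at h
  have h1 : S ∩ Tᶜ = S \ T := by ext v; simp
  have h2 : cut x (S ∪ Tᶜ) = cut x (T \ S) := by
    rw [← cut_compl hx (T \ S)]
    congr 1
    ext v
    simp only [mem_union, mem_compl, mem_sdiff]
    tauto
  rw [h1, h2] at h
  exact h

theorem cut_comb (a b : ℝ) (x y : V → V → ℝ) (S : Finset V) :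
    cut (fun u v => a * x u v + b * y u v) S = a * cut x S + b * cut y S := by
  simp only [cut, Finset.mul_sum, ← Finset.sum_add_distrib]

theorem deg_comb (a b : ℝ) (x y : V → V → ℝ) (v : V) :
    deg (fun u v => a * x u v + b * y u v) v = a * deg x v + b * deg y v := by
  simp only [deg, Finset.mul_sum, ← Finset.sum_add_distrib]

/-- The unit weight on one edge. -/
def edge (u v : V) (p q : V) : ℝ := if s(p, q) = s(u, v) then 1 else 0

theorem deg_le_cut {G : Finset (Sym2 V)} {x : V → V → ℝ} (hx : Wt G x) (u : V) (S : Finset V) (hu : u ∈ S)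
    (h : ∀ v ∈ S, x u v = 0) : deg x u ≤ cut x S := by
  have h1 : deg x u = ∑ v ∈ Sᶜ, x u v := by
    unfold deg
    rw [← Finset.sum_add_sum_compl S, Finset.sum_eq_zero h, zero_add]
  rw [h1]
  exact Finset.single_le_sum (f := fun u => ∑ v ∈ Sᶜ, x u v)
    (fun i _ => Finset.sum_nonneg fun v _ => hx.nn i v) hu

end H31S
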