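import Pool.Agent.Lib.H31S.C1
import Pool.Agent.Lib.H31S.C2
import Pool.Agent.Lib.H31S.C4
import Pool.Agent.Lib.H31S.C5
import Pool.Agent.Lib.H31S.C6
import Pool.Agent.Lib.H31S.C7
import Pool.Agent.Lib.H31S.C8
import Pool.Agent.Lib.H31S.C9

/-! # H31S: the exchange property -/

set_option autoImplicit false

namespace H31S

open Finset H98M

variable {V : Type*} [Fintype V] [DecidableEq V]

theorem edge_symm (u v p q : V) : edge u v p q = edge u v q p := by
  unfold edge
  rw [Sym2.eq_swap]

theorem edge_nonneg (u v p q : V) : 0 ≤ edge u v p q := by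
  unfold edge
  split_ifs <;> norm_num

theorem wt_edge (u v : V) : Wt {s(u, v)} (edge u v) where
  symm := edge_symm u v
  nn := edge_nonneg u v
  supp := fun p q h => by
    unfold edge
    rw [if_neg]
    simpa using h

theorem deg_edge {u v : V} (h : u ≠ v) : deg (edge u v) u = 1 := by
  unfold deg edge
  rw [Finset.sum_eq_single v]
  · simp
  · intro w _ hw
    rw [if_neg]
    intro h1
    rw [Sym2.eq_iff] at h1
    rcases h1 with h1 | h1
    · exact hw h1.2
    · exact h h1.1
  · intro h1
    exact absurd (mem_univ v) h1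

theorem deg_nonneg {G : Finset (Sym2 V)} {x : V → V → ℝ} (hx : Wt G x) (v : V) : 0 ≤ deg x v :=
  Finset.sum_nonneg fun w _ => hx.nn v w

theorem cut_singleton_le {G : Finset (Sym2 V)} {x : V → V → ℝ} (hx : Wt G x) (v : V) : cut x {v} ≤ deg x v := by
  unfold cut deg
  rw [Finset.sum_singleton]
  exact Finset.sum_le_sum_of_subset_of_nonneg (subset_univ _) fun w _ _ => hx.nn v w

theorem cut_edge_zero {u v : V} {S : Finset V} (h : u ∈ S ↔ v ∈ S) : cut (edge u v) S = 0 := by
  unfold cut
  apply Finset.sum_eq_zero
  intro p hp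
  apply Finset.sum_eq_zero
  intro q hq
  rw [mem_compl] at hq
  unfold edge
  rw [if_neg]
  intro h1
  rw [Sym2.eq_iff] at h1
  rcases h1 with ⟨rfl, rfl⟩ | ⟨rfl, rfl⟩
  · exact hq (h.1 hp)
  · exact hq (h.2 hp)

theorem cut_edge_le {u v : V} (S : Finset V) : cut (edge u v) S ≤ 1 := by
  by_cases h : u ∈ S ↔ v ∈ S
  · rw [cut_edge_zero h]
    exact zero_le_one
  · have key : ∀ a b : V, a ∈ S → b ∉ S → s(a, b) = s(u, v) → cut (edge u v) S ≤ 1 := by
      intro a b ha hb hab
      unfold cut
      rw [Finset.sum_eq_single_of_mem a ha, Finset.sum_eq_single_of_mem b (mem_compl.2 hb)]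
      · unfold edge
        split_ifs <;> norm_num
      · intro q hq hqb
        unfold edge
        rw [if_neg]
        intro h1
        rw [← hab, Sym2.eq_iff] at h1
        rcases h1 with h1 | h1
        · exact hqb h1.2
        · exact hb (h1.1 ▸ ha)
      · intro p hp hpa
        apply Finset.sum_eq_zero
        intro q hq
        rw [mem_compl] at hq
        unfold edge
        rw [if_neg]
        intro h1
        rw [← hab, Sym2.eq_iff] at h1
        rcases h1 with h1 | h1
        · exact hpa h1.1
        · exact hq (h1.2 ▸ ha)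
    by_cases hu : u ∈ S
    · have hv : v ∉ S := fun hv => h ⟨fun _ => hv, fun _ => hu⟩
      exact key u v hu hv rfl
    · have hv : v ∈ S := by
        by_contra hv
        exact h ⟨fun h1 => absurd h1 hu, fun h1 => absurd h1 hv⟩
      exact key v u hv hu Sym2.eq_swap

theorem half {G : Finset (Sym2 V)} (hG : ∀ v, s(v, v) ∉ G) {A U : Finset V} {b d : V} {x y : V → V → ℝ} {θ θ' : ℝ}
    (hbA : b ∉ A) (hdA : d ∉ A) (hbd : b ≠ d) (hb : b ∈ U) (hd : d ∈ U) (hU : ¬ Disc U G)
    (hN : ∀ u ∈ U, u ≠ b → u ≠ d → ¬ Pi G (insert u A)) (hno : ¬ Pi G (insert b (insert d A)))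
    (hx : Feas G A x) (hxb : FL x A b 2) (hxd : FL x A d θ)
    (hxm : ∀ z, Feas G A z → FL z A b 2 → FL z A d θ → ∑ u, ∑ v, x u v ≤ ∑ u, ∑ v, z u v)
    (hxt : ∀ (z : V → V → ℝ) (δ : ℝ), Feas G A z → FL z A b 2 → FL z A d δ → δ ≤ θ)
    (hy : Feas G A y) (hyd : FL y A d 2) (hyb : FL y A b θ')
    (hym : ∀ z, Feas G A z → FL z A d 2 → FL z A b θ' → ∑ u, ∑ v, y u v ≤ ∑ u, ∑ v, z u v)
    (hθ : θ ≤ θ') : False := by
  have tx := tight_of_min hx hxb hxd hxm
  have ty := tight_of_min hy hyd hyb hym
  have hθ2 : θ < 2 := by
    by_contra h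
    rw [not_lt] at h
    exact hno ⟨x, feas_ins2 hx hxb fun S hS hSA => h.trans (hxd S hS hSA)⟩
  have hxdeg : deg x d < 2 := by
    by_contra h
    rw [not_lt] at h
    refine hno ⟨x, feas_ins2 hx hxb fun S hS hSA => ?_⟩
    by_cases hbS : b ∈ S
    · exact hxb S hbS hSA
    · exact h.trans (deg_le hx hxb hxd tx d S hS hSA (fun h => absurd h hbS) fun _ => rfl)
  set β := deg y b with hβ
  have hβ2 : β ≤ 2 := hy.deg_le b
  have hβS : ∀ S : Finset V, b ∈ S → Disjoint S A → d ∉ S → β ≤ cut y S := fun S hS hSA hdS =>
    deg_le hy hyd hyb ty b S hS hSA (fun h => absurd h hdS) fun _ => rfl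
  have hβθ : θ' ≤ β := (hyb {b} (mem_singleton_self b) (by simpa using hbA)).trans (cut_singleton_le hy.wt b)
  have hβ0 : 0 ≤ 2 - β := by linarith
  obtain ⟨u, U', hU', hbU', huU', hbu, hconn, hQ, huQ⟩ := target (fun w => deg x w < 2) hb hd hbd hU
  obtain ⟨p, hp, hpU, hpb, hpu, hp2, hpS⟩ := path_wt hbU' huU' hbu hconn
  have hpdeg : ∀ w, w ∉ U' → deg p w = 0 := fun w hw => Finset.sum_eq_zero fun v _ => hpU w v hw
  by_cases hud : u = d
  · subst hud
    have key := perturb (w := fun u v => 1 * y u v + (2 - β) * p u v) hx hxb hxd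
      (fun v w => by rw [hy.wt.symm v w, hp.symm v w])
      (fun v w h => by rw [hy.wt.supp v w h, hp.supp v w h]; ring)
      (fun v w => Or.inr (by have h1 := hy.wt.nn v w; have h2 := hp.nn v w; positivity)) ?_ ?_ ?_ ?_
    · obtain ⟨z, δ, h1, h2, h3, h4⟩ := key
      exact absurd (hxt z δ h2 h3 h4) (not_le.2 h1)
    · intro v
      rw [deg_comb]
      by_cases hvb : v = b
      · right
        subst hvb
        nlinarith
      · by_cases hvu : v = u
        · left
          rw [hvu]
          exact hxdeg
        · by_cases hvU : v ∈ U'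
          · exact Or.inl (hQ v hvU hvb hvu)
          · right
            rw [hpdeg v hvU]
            have := hy.deg_le v
            linarith
    · intro T hT
      right
      rw [cut_comb]
      have h1 := hy.sep T hT
      have h2 := cut_nonneg hp T
      nlinarith
    · intro S hS hSA
      right
      rw [cut_comb]
      by_cases hdS : u ∈ S
      · have h1 := hyd S hdS hSA
        have h2 := cut_nonneg hp S
        nlinarith
      · have h1 := hβS S hS hSA hdS
        have h2 := hpS S hS hdS
        nlinarith
    · intro S hS hSA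
      right
      rw [cut_comb]
      have h1 := hyd S hS hSA
      have h2 := cut_nonneg hp S
      nlinarith
  · have huQ' : 2 ≤ deg x u := by
      rcases huQ with h | h
      · exact absurd h hud
      · exact not_lt.1 h
    have hub : u ≠ b := Ne.symm hbu
    have huno : ¬ Pi G (insert u A) := hN u (hU' huU') hub hud
    have huA : u ∉ A := by
      intro h
      exact huno ⟨x, by rw [insert_eq_of_mem h]; exact hx⟩
    have hx1 : ∀ S : Finset V, u ∈ S → Disjoint S A → b ∉ S → d ∉ S → 2 ≤ cut x S := fun S hS hSA hbS hdS =>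
      huQ'.trans (deg_le hx hxb hxd tx u S hS hSA (fun h => absurd h hbS) fun h => absurd h hdS)
    have hyu : deg y u < 2 := by
      by_contra h
      rw [not_lt] at h
      refine huno (both_sat hx hy hxb hyd hub hud huA hbA hdA hbd hx1 ?_)
      intro S hS hSA hbS hdS
      exact h.trans (deg_le hy hyd hyb ty u S hS hSA (fun h => absurd h hdS) fun h => absurd h hbS)
    obtain ⟨F1, v, hv, F2⟩ := sat_edge hx hxb hub hud huA hbA hdA hbd huQ' hx1 huno
    have hGuv : s(u, v) ∈ G := by
      by_contra h
      rw [hx.wt.supp u v h] at hv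
      exact lt_irrefl _ hv
    -- strictness of the cuts through `uv`
    have hsA : ∀ T : Finset V, Sep A T → (¬ (u ∈ T ↔ v ∈ T)) → 2 < cut x T := by
      intro T hT huvT
      by_cases huT : u ∈ T
      · have hvT : v ∉ T := fun h => huvT ⟨fun _ => h, fun _ => huT⟩
        exact (F2 T huT hvT).1 hT
      · have hvT : v ∈ T := by
          by_contra h
          exact huvT ⟨fun h1 => absurd h1 huT, fun h1 => absurd h1 h⟩
        rw [← cut_compl hx.wt T]
        refine (F2 Tᶜ (mem_compl.2 huT) (by simpa using hvT)).1 ?_
        obtain ⟨⟨a, ha, ha'⟩, ⟨c, hc, hc'⟩⟩ := hT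
        exact ⟨⟨c, hc, mem_compl.2 hc'⟩, ⟨a, ha, by simpa using ha'⟩⟩
    have hsB : ∀ S : Finset V, b ∈ S → Disjoint S A → (¬ (u ∈ S ↔ v ∈ S)) → 2 < cut x S := by
      intro T hbT hTA huvT
      by_cases huT : u ∈ T
      · have hvT : v ∉ T := fun h => huvT ⟨fun _ => h, fun _ => huT⟩
        exact (F2 T huT hvT).2.1 hbT hTA
      · have hvT : v ∈ T := by
          by_contra h
          exact huvT ⟨fun h1 => absurd h1 huT, fun h1 => absurd h1 h⟩
        rw [← cut_compl hx.wt T]
        exact (F2 Tᶜ (mem_compl.2 huT) (by simpa using hvT)).2.2 (by simpa using hbT) (by rwa [compl_compl])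
    have huv' : u ≠ v := by
      rintro rfl
      exact hG u hGuv
    set κ := max 0 (deg y u - β) with hκ
    have hκ0 : 0 ≤ κ := le_max_left _ _
    have hκ1 : deg y u - β ≤ κ := le_max_right _ _
    have hκ2 : κ < 2 - θ := max_lt (by linarith) (by linarith)
    have key := perturb (w := fun s t => 1 * (1 * y s t + (2 - β) * p s t) + (-κ) * edge u v s t) hx hxb hxd
      (fun s t => by rw [hy.wt.symm s t, hp.symm s t, edge_symm u v s t])
      (fun s t h => by
        have h1 : edge u v s t = 0 := by
          unfold edge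
          rw [if_neg]
          intro h2
          rw [h2] at h
          exact h hGuv
        rw [hy.wt.supp s t h, hp.supp s t h, h1]; ring)
      (fun s t => by
        by_cases h : s(s, t) = s(u, v)
        · left
          rw [Sym2.eq_iff] at h
          rcases h with ⟨rfl, rfl⟩ | ⟨rfl, rfl⟩
          · exact hv
          · rw [hx.wt.symm]
            exact hv
        · right
          have h1 : edge u v s t = 0 := by
            unfold edge
            rw [if_neg h]
          rw [h1]
          have h1 := hy.wt.nn s t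
          have h2 := hp.nn s t
          have h3 : 0 ≤ (2 - β) * p s t := mul_nonneg hβ0 h2
          linarith) ?_ ?_ ?_ ?_
    · obtain ⟨z, δ, h1, h2, h3, h4⟩ := key
      exact absurd (hxt z δ h2 h3 h4) (not_le.2 h1)
    · intro t
      have he0 : 0 ≤ deg (edge u v) t := deg_nonneg (wt_edge u v) t
      have he1 : 0 ≤ κ * deg (edge u v) t := mul_nonneg hκ0 he0
      rw [deg_comb, deg_comb]
      by_cases hvb : t = b
      · right
        subst hvb
        have h3 : (2 - β) * deg p t ≤ (2 - β) * 1 := mul_le_mul_of_nonneg_left hpb hβ0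
        rw [← hβ]
        linarith
      · by_cases hvu : t = u
        · right
          subst hvu
          rw [deg_edge huv']
          have h3 : (2 - β) * deg p t ≤ (2 - β) * 1 := mul_le_mul_of_nonneg_left hpu hβ0
          linarith
        · by_cases hvU : t ∈ U'
          · exact Or.inl (hQ t hvU hvb hvu)
          · right
            rw [hpdeg t hvU]
            have := hy.deg_le t
            linarith
    · intro T hT
      by_cases hs : u ∈ T ↔ v ∈ T
      · right
        rw [cut_comb, cut_comb, cut_edge_zero hs]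
        have h1 := hy.sep T hT
        have h3 := mul_nonneg hβ0 (cut_nonneg hp T)
        linarith
      · exact Or.inl (hsA T hT hs)
    · intro S hS hSA
      by_cases hs : u ∈ S ↔ v ∈ S
      · by_cases hdS : d ∈ S
        · right
          rw [cut_comb, cut_comb, cut_edge_zero hs]
          have h1 := hyd S hdS hSA
          have h3 := mul_nonneg hβ0 (cut_nonneg hp S)
          linarith
        · by_cases huS : u ∈ S
          · exact Or.inl (F1 S huS hS hdS hSA)
          · right
            rw [cut_comb, cut_comb, cut_edge_zero hs]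
            have h1 := hβS S hS hSA hdS
            have h3 : (2 - β) * 1 ≤ (2 - β) * cut p S := mul_le_mul_of_nonneg_left (hpS S hS huS) hβ0
            linarith
      · exact Or.inl (hsB S hS hSA hs)
    · intro S hS hSA
      right
      rw [cut_comb, cut_comb]
      have h1 := hyd S hS hSA
      have h3 := mul_nonneg hβ0 (cut_nonneg hp S)
      have h4 : κ * cut (edge u v) S ≤ κ * 1 := mul_le_mul_of_nonneg_left (cut_edge_le S) hκ0
      linarith

/-- THE EXCHANGE PROPERTY. -/
theorem exchange {G : Finset (Sym2 V)} (hG : ∀ v, s(v, v) ∉ G) {A U : Finset V} {b d : V}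
    (hPb : Pi G (insert b A)) (hPd : Pi G (insert d A)) (hb : b ∈ U) (hd : d ∈ U) (hU : ¬ Disc U G)
    (hN : ∀ u ∈ U, u ≠ b → u ≠ d → ¬ Pi G (insert u A)) : Pi G (insert b (insert d A)) := by
  by_cases hbd : b = d
  · subst hbd
    rw [insert_idem]
    exact hPb
  by_cases hbA : b ∈ A
  · rw [insert_eq_of_mem (mem_insert_of_mem hbA)]
    exact hPd
  by_cases hdA : d ∈ A
  · rw [insert_eq_of_mem hdA]
    exact hPb
  rcases A.eq_empty_or_nonempty with rfl | hA
  · -- `b`, `d` are adjacent
    have hone : ∀ u, Pi G (insert u (∅ : Finset V)) := fun u => ⟨fun _ _ => 0,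
      ⟨⟨fun _ _ => rfl, fun _ _ => le_rfl, fun _ _ _ => rfl⟩, fun v => by simp [deg], fun S hS => by
        obtain ⟨⟨a, ha, ha'⟩, ⟨c, hc, hc'⟩⟩ := hS
        simp only [insert_empty_eq, mem_singleton] at ha hc
        subst ha hc
        exact absurd ha' hc'⟩⟩
    have hU2 : ∀ u ∈ U, u = b ∨ u = d := by
      intro u hu
      by_contra h
      rw [not_or] at h
      exact hN u hu h.1 h.2 (hone u)
    have hadj : s(b, d) ∈ G := by
      by_contra h
      refine hU ⟨{b}, {d}, singleton_nonempty b, singleton_nonempty d, by simpa using hbd, ?_, ?_⟩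
      · ext v
        simp only [mem_union, mem_singleton]
        constructor
        · rintro (rfl | rfl)
          · exact hb
          · exact hd
        · exact hU2 v
      · intro v hv w hw
        rw [mem_singleton] at hv hw
        subst hv hw
        exact h
    refine ⟨fun p q => 2 * edge b d p q + 0 * edge b d p q, ⟨⟨?_, ?_, ?_⟩, ?_, ?_⟩⟩
    · intro p q
      rw [edge_symm b d p q]
    · intro p q
      have := edge_nonneg b d p q
      linarith
    · intro p q h
      have h1 : edge b d p q = 0 := by
        unfold edge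
        rw [if_neg]
        intro h2
        rw [h2] at h
        exact h hadj
      rw [h1]
      ring
    · intro v
      rw [deg_comb]
      have h1 : deg (edge b d) v ≤ 1 := by
        by_cases hv : v = b
        · rw [hv, deg_edge hbd]
        · by_cases hv' : v = d
          · have h2 : edge b d = edge d b := by
              funext p q
              unfold edge
              rw [Sym2.eq_swap (a := b)]
            rw [hv', h2, deg_edge (Ne.symm hbd)]
          · have h3 : deg (edge b d) v = 0 := by
              unfold deg edge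
              apply Finset.sum_eq_zero
              intro w _
              rw [if_neg]
              intro h4
              rw [Sym2.eq_iff] at h4
              rcases h4 with h4 | h4
              · exact hv h4.1
              · exact hv' h4.1
            rw [h3]
            exact zero_le_one
      linarith
    · intro S hS
      rw [cut_comb]
      have hle : 1 ≤ cut (edge b d) S := by
        have key : ∀ a c : V, a ∈ S → c ∉ S → s(a, c) = s(b, d) → 1 ≤ cut (edge b d) S := by
          intro a c ha hc hac
          have h1 : edge b d a c = 1 := by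
            unfold edge
            rw [if_pos hac]
          rw [← h1]
          unfold cut
          refine le_trans ?_ (Finset.single_le_sum (f := fun u => ∑ v ∈ Sᶜ, edge b d u v)
            (fun i _ => Finset.sum_nonneg fun v _ => edge_nonneg b d i v) ha)
          exact Finset.single_le_sum (f := fun v => edge b d a v) (fun i _ => edge_nonneg b d a i)
            (mem_compl.2 hc)
        obtain ⟨⟨a, ha, ha'⟩, ⟨c, hc, hc'⟩⟩ := hS
        simp only [insert_empty_eq, mem_insert, mem_singleton] at ha hc
        rcases ha with rfl | rfl <;> rcases hc with rfl | rfl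
        · exact absurd ha' hc'
        · exact key _ _ ha' hc' rfl
        · exact key _ _ ha' hc' Sym2.eq_swap
        · exact absurd ha' hc'
      linarith
  by_contra hno
  obtain ⟨x0, hx0⟩ := hPb
  obtain ⟨y0, hy0⟩ := hPd
  obtain ⟨hx0, hx0b⟩ := feas_ins1 hA hx0
  obtain ⟨hy0, hy0d⟩ := feas_ins1 hA hy0
  obtain ⟨θ, x, hx, hxb, hxd, hxm, hxt⟩ := exists_opt (d := d) hdA hx0 hx0b
  obtain ⟨θ', y, hy, hyd, hyb, hym, hyt⟩ := exists_opt (d := b) hbA hy0 hy0d
  rcases le_total θ θ' with h | h
  · exact half hG hbA hdA hbd hb hd hU hN hno hx hxb hxd hxm hxt hy hyd hyb hym h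
  · refine half hG hdA hbA (Ne.symm hbd) hd hb hU (fun u hu h1 h2 => hN u hu h2 h1) ?_ hy hyd hyb hym hyt
      hx hxb hxd hxm h
    rw [Finset.insert_comm]
    exact hno

end H31S
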